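import Pool.Agent.R461.HM.Pow3
import Pool.Agent.R461.HM.Frost2

set_option autoImplicit false

/-!
# MP_6a632e_nt: the moments of zeta along almost every dilate of a Frostman measure

Let `ν` be a probability measure on `[1, 2]` with `(ν × ν)(|x - y| ≤ r) ≤ K r^s` for some `s > 0` (such measures live on every
compact set of positive Hausdorff dimension, for instance on the middle thirds Cantor set), and let `T_i ≥ 2^i`. For almost
every `l > 0` and for all `k` the moments of zeta at the heights `l T_i x`, `x` distributed by `ν`, behave as `i → ∞` like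
those on intervals: the band-limited averages of the shifted `2k`-th moments tend to the limit predicted by the recipe, and the
powers of the local mean squares have means of at least the order `(log T)^(k²)`.
-/

namespace Pool.Agent.Results.MP_6a632e_nt.FrostmanMeasures

open Complex MeasureTheory Filter Topology Set
open scoped ContDiff ENNReal

noncomputable section

/-- probability measures on `[1, 2]` with `ν × ν` mass at most `K r^s` in the strip `|x - y| ≤ r` -/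
structure Frostman (s K : ℝ) (ν : Measure ℝ) : Prop where
  prob : IsProbabilityMeasure ν
  supp : ∀ᵐ x ∂ν, x ∈ Icc (1:ℝ) 2
  frost : ∀ r : ℝ, 0 < r → (ν.prod ν) {p : ℝ × ℝ | |p.1 - p.2| ≤ r} ≤ ENNReal.ofReal (K * r ^ s)

/-- the arithmetic factor `a_k` -/
def ak (k : ℕ) : ℝ :=
  ∏' p : Nat.Primes, ((1 - 1 / (p : ℝ)) ^ (k ^ 2) * ∑' m : ℕ, ((m + k - 1).choose m : ℝ) ^ 2 * (1 / (p : ℝ)) ^ m)

/-- `φ(α) = ∫ ψ(v) e^{ivα} dv` -/
def phi (ψ : ℝ → ℂ) (α : ℝ) : ℂ := ∫ v : ℝ, ψ v * exp (I * v * α)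

/-- the normalised shifted `2k`-th moment over the heights `U x`, `x` distributed by `ν` -/
def Q (k : ℕ) (ν : Measure ℝ) (U α : ℝ) : ℂ :=
  ((Real.log U : ℂ) ^ (k ^ 2))⁻¹ * ∫ x : ℝ, riemannZeta (1 / 2 + I * α / Real.log U + I * (U * x : ℝ)) ^ k *
    riemannZeta (1 / 2 + I * α / Real.log U - I * (U * x : ℝ)) ^ k ∂ν

/-- the weighted mean of `|ζ(1/2 + i(t + u))|²` over `u` at the scale `1 / log U` -/
def localSq (N : ℕ) (U t : ℝ) : ℝ≥0∞ :=
  ∫⁻ u : ℝ, ENNReal.ofReal (‖riemannZeta (1 / 2 + I * (t + u))‖ ^ 2 * (Real.log U / (1 + Real.log U * |u|) ^ N))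

lemma Frostman.to {s K : ℝ} {ν : Measure ℝ} (h : Frostman s K ν) : R461.HM.Frostman s K ν := ⟨h.prob, h.supp, h.frost⟩

lemma phi_eq (ψ : ℝ → ℂ) (α : ℝ) : phi ψ α = W182.KO.P ψ (α * I) := by
  unfold phi W182.KO.P
  congr 1; funext v
  congr 2
  ring

lemma Q_eq (k : ℕ) (ν : Measure ℝ) {U : ℝ} (hU : 0 < U) (α : ℝ) :
    Q k ν U α = R461.HM.Qn k (ν.map (fun x => U * x)) α U := by
  unfold Q R461.HM.Qn
  rw [(measurableEmbedding_mulLeft₀ hU.ne').integral_map]

lemma localSq_eq (N : ℕ) (U t : ℝ) : localSq N U t = R461.HM.loc 1 N U t := by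
  unfold localSq R461.HM.loc
  simp only [mul_one]

/-- Let `0 < s ≤ 1`, `K ≥ 0`. (1) For all such `ν` and `T_i ≥ 2^i` and almost every `l > 0`: for all `k ≥ 1` and all smooth
`ψ` with compact support vanishing above `s/40` the integrals of `φ Q_k`, `U = l T_i`, converge for large `i` and tend to
`2 π a_k ∫_0^∞ u^(k²-1)/(k²-1)! ψ(2u) du`. (2) For all `q ≥ 1`, `N` there is `c > 0` such that for all such `ν`, `T_i` and
almost every `l > 0` the mean of the `q`-th powers of the local mean squares of zeta at the heights `l T_i x` is at least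
`c (log (l T_i))^(q²)` for large `i`. -/
theorem result (s K : ℝ) (hs : 0 < s) (hs1 : s ≤ 1) (hK : 0 ≤ K) :
    (∀ ν : Measure ℝ, Frostman s K ν → ∀ T : ℕ → ℝ, (∀ i, (2:ℝ) ^ i ≤ T i) → ∀ᵐ l : ℝ, 0 < l → ∀ k : ℕ, 1 ≤ k →
      ∀ ψ : ℝ → ℂ, ContDiff ℝ ∞ ψ → HasCompactSupport ψ → (∀ ξ : ℝ, s / 40 < ξ → ψ ξ = 0) →
      (∀ᶠ i : ℕ in atTop, Integrable (fun α : ℝ => phi ψ α * Q k ν (l * T i) α)) ∧
      Tendsto (fun i : ℕ => ∫ α : ℝ, phi ψ α * Q k ν (l * T i) α) atTop
        (𝓝 (2 * Real.pi * ak k * ∫ u in Set.Ioi (0:ℝ), (u : ℂ) ^ (k ^ 2 - 1) / (k ^ 2 - 1).factorial * ψ (2 * u)))) ∧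
    (∀ q : ℕ, 1 ≤ q → ∀ N : ℕ, ∃ c : ℝ, 0 < c ∧ ∀ ν : Measure ℝ, Frostman s K ν → ∀ T : ℕ → ℝ, (∀ i, (2:ℝ) ^ i ≤ T i) →
      ∀ᵐ l : ℝ, 0 < l → ∀ᶠ i : ℕ in atTop, ENNReal.ofReal (c * Real.log (l * T i) ^ (q ^ 2)) ≤
        ∫⁻ x, localSq N (l * T i) (l * T i * x) ^ q ∂ν) := by
  have htend : ∀ T : ℕ → ℝ, (∀ i, (2:ℝ) ^ i ≤ T i) → ∀ l : ℝ, 0 < l → Tendsto (fun i : ℕ => l * T i) atTop atTop :=
    fun T hT l hl => (tendsto_atTop_mono hT (tendsto_pow_atTop_atTop_of_one_lt (by norm_num))).const_mul_atTop hl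
  constructor
  · intro ν hν T hT
    filter_upwards [R461.HM.frost_heights hs hs1 hK hν.to hT] with l hl hpos k hk ψ hψ hc hsup
    have hmain : ∀ η : ℝ, 0 < η → ∀ᶠ i : ℕ in atTop,
        Integrable (fun α : ℝ => phi ψ α * Q k ν (l * T i) α) ∧
        ‖(∫ α : ℝ, phi ψ α * Q k ν (l * T i) α) -
          2 * Real.pi * ak k * ∫ u in Set.Ioi (0:ℝ), (u : ℂ) ^ (k ^ 2 - 1) / (k ^ 2 - 1).factorial * ψ (2 * u)‖ ≤ η := by
      intro η hη
      obtain ⟨T₀, hT₀, hlim⟩ := R461.HM.limit_form (θ := s / 80) (θ' := s / 40) (by positivity) (by linarith) hψ hc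
        (fun ξ hξ => hsup ξ (by linarith)) hk η hη
      filter_upwards [hl hpos, (htend T hT l hpos).eventually_ge_atTop T₀] with i h1 h2
      have hU0 : 0 < l * T i := (Real.exp_pos 1).trans_le (hT₀.trans h2)
      have h3 := hlim (l * T i) h2 (ν.map (fun x => l * T i * x)) (by
        have e : (2 * (s / 80) : ℝ) = s / 40 := by ring
        rw [e]
        exact h1)
      simp only [phi_eq, Q_eq k ν hU0]
      exact h3
    refine ⟨(hmain 1 one_pos).mono fun i hi => hi.1, ?_⟩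
    rw [Metric.tendsto_nhds]
    intro ε hε
    filter_upwards [hmain (ε / 2) (by positivity)] with i hi
    rw [dist_eq_norm]
    exact hi.2.trans_lt (by linarith)
  · intro q hq N
    obtain ⟨c, T₀, hc, hT₀, hlow⟩ := R461.HM.pow_main hq N (κ := s / 40) (by positivity)
    refine ⟨c, hc, fun ν hν T hT => ?_⟩
    filter_upwards [R461.HM.frost_heights hs hs1 hK hν.to hT] with l hl hpos
    filter_upwards [hl hpos, (htend T hT l hpos).eventually_ge_atTop T₀] with i hνi h2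
    have hU0 : 0 < l * T i := (Real.exp_pos 1).trans_le (hT₀.trans h2)
    have hL : 1 ≤ Real.log (l * T i) := by
      rw [Real.le_log_iff_exp_le hU0]
      exact hT₀.trans h2
    have h3 := hlow (l * T i) h2 _ hνi.prob (by
      filter_upwards [hνi.supp] with t ht
      exact ⟨by linarith [ht.1], by linarith [ht.2]⟩) hνi.small
    have hme : Measurable fun x : ℝ => l * T i * x := by fun_prop
    rw [lintegral_map ((R461.HM.loc_meas 1 N (by linarith)).pow_const q) hme] at h3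
    simp only [localSq_eq]
    exact h3

end

end Pool.Agent.Results.MP_6a632e_nt.FrostmanMeasures
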