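import Pool.Agent.R446.KR.Lim

set_option autoImplicit false

/-!
# The `2k`-th moment of zeta is determined by shifted moments with non-zero shifts
-/

namespace Pool.Agent.Results.MP_6a632e_nt.NonzeroShifts

open Complex MeasureTheory Filter Topology Set Pool.Agent.TH535.SM Pool.Agent.R446.KR
open scoped ComplexConjugate

/-- The moment `M_k(T)` of the problem. -/
noncomputable def Mk (k : ℕ) (T : ℝ) : ℝ :=
  1 / T * ∫ t in (0:ℝ)..T, ‖riemannZeta (1 / 2 + I * t)‖ ^ (2 * k)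

/-- The mean over `[0, T]` of the holomorphic product of `2k` zeta values with all shifts equal to
`α / log T`. At `α = 0` it is `M_k(T)`. -/
noncomputable def shifted (k : ℕ) (α T : ℝ) : ℂ :=
  1 / (T : ℂ) * ∫ t in (0:ℝ)..T, riemannZeta (1 / 2 + I * t + I * α / Real.log T) ^ k *
    riemannZeta (1 / 2 - I * t + I * α / Real.log T) ^ k

lemma shifted_eq (k : ℕ) (α T : ℝ) : shifted k α T / ((Real.log T ^ (k ^ 2) : ℝ) : ℂ) =
    Cor (zk k) (α / Real.log T) T / ((NN (k ^ 2) T : ℝ) : ℂ) := by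
  unfold shifted Cor NN
  have e : ∫ t in (0:ℝ)..T, riemannZeta (1 / 2 + I * t + I * α / Real.log T) ^ k *
      riemannZeta (1 / 2 - I * t + I * α / Real.log T) ^ k =
      ∫ t in (0:ℝ)..T, zk k (t + α / Real.log T) * conj (zk k (t + -(α / Real.log T))) := by
    refine intervalIntegral.integral_congr fun t _ => ?_
    unfold zk ze
    have e1 : (1 / 2 + I * t + I * α / Real.log T : ℂ) = 1 / 2 + ((t + α / Real.log T : ℝ) : ℂ) * I := by
      push_cast; ring
    have e2 : (1 / 2 - I * t + I * α / Real.log T : ℂ) = conj (1 / 2 + ((t + -(α / Real.log T) : ℝ) : ℂ) * I) := by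
      rw [map_add, map_mul, conj_I, Complex.conj_ofReal, map_div₀, map_one, map_ofNat]
      push_cast
      ring
    rw [e1, e2, riemannZeta_conj, map_pow]
  rw [e, Complex.ofReal_mul, mul_comm (1 / (T : ℂ)), mul_one_div, div_div]

lemma Mk_eq (k : ℕ) (T : ℝ) : Mk k T / Real.log T ^ (k ^ 2) = M (zk k) T / NN (k ^ 2) T := by
  unfold Mk M NN zk ze
  have e : ∫ t in (0:ℝ)..T, ‖riemannZeta (1 / 2 + I * t)‖ ^ (2 * k) =
      ∫ t in (0:ℝ)..T, ‖riemannZeta (1 / 2 + t * I) ^ k‖ ^ 2 := by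
    refine intervalIntegral.integral_congr fun t _ => ?_
    rw [norm_pow, ← pow_mul, mul_comm k 2, mul_comm I]
  rw [e, mul_comm (1 / T), mul_one_div, div_div]

/-- Let `A` be a set of real numbers which has infinitely many points in some bounded interval or contains a
lattice `c ℤ` with `0 < c < π / k`; `0 ∈ A` is not required in the first case. (1) For every `ε > 0`, up to `ε`
times the moment, `M_k(T) / (log T)^(k²)` is a fixed finite linear combination of the normalised shifted moments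
with shifts `a / log T`, `a ∈ A`, for all `T` outside sets of measure `≤ C log² X` in `[X, 2X]`. (2) If some
`α₀ ∈ A` has `k |α₀| < π / 2` and for every `a ∈ A` the normalised shifted moment converges as `T → ∞`, then
`M_k(T) / (log T)^(k²)` converges. -/
theorem result (k : ℕ) (A : Set ℝ)
    (hA : (∃ R : ℝ, (A ∩ Icc (-R) R).Infinite) ∨ ∃ c : ℝ, 0 < c ∧ c * k < Real.pi ∧ ∀ m : ℤ, c * m ∈ A) :
    (∀ ε : ℝ, 0 < ε → ∃ (s : Finset ℝ) (c : ℝ → ℂ), (∀ a ∈ s, a ∈ A) ∧
      ∃ C X₀ : ℝ, ∀ X : ℝ, X₀ ≤ X → ∃ E : Set ℝ, MeasurableSet E ∧ E ⊆ Icc X (2 * X) ∧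
        volume E ≤ ENNReal.ofReal (C * Real.log X ^ 2) ∧
        ∀ T ∈ Icc X (2 * X), T ∉ E →
          ‖((Mk k T / Real.log T ^ (k ^ 2) : ℝ) : ℂ) -
            ∑ a ∈ s, c a * (shifted k a T / ((Real.log T ^ (k ^ 2) : ℝ) : ℂ))‖ ≤
            ε * (Mk k T / Real.log T ^ (k ^ 2) + 1)) ∧
    ∀ α₀ ∈ A, k * |α₀| < Real.pi / 2 →
      (∀ a ∈ A, ∃ l : ℂ, Tendsto (fun T : ℝ => shifted k a T / ((Real.log T ^ (k ^ 2) : ℝ) : ℂ)) atTop (𝓝 l)) →
        ∃ l : ℝ, Tendsto (fun T : ℝ => Mk k T / Real.log T ^ (k ^ 2)) atTop (𝓝 l) := by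
  have hC : Cpl A k := by
    rcases hA with ⟨R, hR⟩ | ⟨c, h1, h2, h3⟩
    · exact cpl_of_infinite hR
    · exact cpl_of_lattice h1 h2 h3
  constructor
  · intro ε hε
    obtain ⟨s, c, h1, -, C, X0, h3⟩ := common k hC 0 hε
    refine ⟨s, c, h1, C, X0, fun X hX => ?_⟩
    obtain ⟨E, e1, e2, e3, e4⟩ := h3 X hX
    refine ⟨E, e1, e2, e3, fun T hT hTE => ?_⟩
    have h := e4 T hT hTE
    rw [zero_div, Cor_zero, ← Complex.ofReal_div] at h
    simp only [Mk_eq, shifted_eq]
    exact h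
  · intro α₀ h0 h0' hlim
    choose! G hG using hlim
    simp only [shifted_eq] at hG
    obtain ⟨m, hm⟩ := exists_limit (zk_hz k) hC h0 (by rw [mul_comm]; exact h0') hG
    refine ⟨m, ?_⟩
    simp only [Mk_eq]
    exact hm

end Pool.Agent.Results.MP_6a632e_nt.NonzeroShifts
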