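import Pool.Agent.R311.SE.G

set_option autoImplicit false

/-!
Lower bounds of the conjectured order for the integer moments of the zeta function on the critical
line, restricted to the points where the value of zeta lies in an arbitrarily narrow sector around
an arbitrary direction `u`, uniformly in the direction, in all ranges `[T, T + H]`,
`T ^ ε ≤ H ≤ T`.
-/

namespace Pool.Agent.Results.MP_6a632e_nt.SectorMoments

open MeasureTheory Filter

theorem result (q : ℕ) (hq : 2 ≤ q) (ε κ : ℝ) (hε : 0 < ε) (hκ : κ < 1) :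
    ∃ c : ℝ, 0 < c ∧ ∀ᶠ T : ℝ in atTop, ∀ H : ℝ, T ^ ε ≤ H → H ≤ T → ∀ u : ℂ, ‖u‖ = 1 →
      c * H * Real.log T ^ ((q:ℝ) ^ 2 / 4) ≤
        ∫ t in {t : ℝ | t ∈ Set.Icc T (T + H) ∧
            κ * ‖riemannZeta (1 / 2 + (t : ℂ) * Complex.I)‖ <
              ((starRingEnd ℂ) u * riemannZeta (1 / 2 + (t : ℂ) * Complex.I)).re},
          ‖riemannZeta (1 / 2 + (t : ℂ) * Complex.I)‖ ^ q :=
  Pool.Agent.R311.SE.main_sec q hq ε κ hε hκ

end Pool.Agent.Results.MP_6a632e_nt.SectorMoments
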