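import Pool.Agent.R313.KO.Sh
import Pool.Agent.W182.KO.Fin1
import Pool.Agent.H306R2.EvenConst

set_option autoImplicit false

/-!
# MP_6a632e_nt: the spectrum of the shifted moments of every order in short intervals

Let `Q(α) = (1 / (H (log T)^(k²))) ∫_T^(T+H) ζ(1/2 + iα/log T + it)^k ζ(1/2 + iα/log T - it)^k dt`; `Q(0)` is the `2k`-th
moment over `[T, T + H]`, divided by `(log T)^(k²)`. Let `0 ≤ θ < θ'`, let `ψ` be smooth with compact support, vanishing above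
`2θ`, and let `φ(α) = ∫ ψ(ξ) e^{iξα} dξ`. For every integer `k ≥ 1`
`∫ φ(α) Q(α) dα = 2π (log T)^(-k²) ∑_n d_k(n)² / n ψ(2 log n / log T) + O(T^θ' / H)` for `0 < H ≤ T`, and this tends to
`2π a_k ∫_0^∞ u^(k²-1) / (k²-1)! ψ(2u) du` uniformly for `T^θ' ≤ H ≤ T`.
-/

namespace Pool.Agent.Results.MP_6a632e_nt.ShortIntervalSpectrum

open Complex MeasureTheory Filter Topology
open scoped ContDiff

/-- the arithmetic factor `a_k` of the problem -/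
noncomputable def ak (k : ℕ) : ℝ :=
  ∏' p : Nat.Primes, ((1 - 1 / (p : ℝ)) ^ (k ^ 2) * ∑' m : ℕ, ((m + k - 1).choose m : ℝ) ^ 2 * (1 / (p : ℝ)) ^ m)

/-- the number `d_k(n)` of ordered factorisations of `n` into `k` factors -/
def dk (k n : ℕ) : ℕ := (Nat.finMulAntidiag k n).card

/-- the shifted moment over `[T, T + H]`, divided by `(log T)^(k²)` -/
noncomputable def Qk (k : ℕ) (α T H : ℝ) : ℂ :=
  (H : ℂ)⁻¹ * ((Real.log T : ℂ) ^ (k ^ 2))⁻¹ *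
    ∫ t in T..(T + H), riemannZeta (1 / 2 + I * α / Real.log T + I * t) ^ k *
      riemannZeta (1 / 2 + I * α / Real.log T - I * t) ^ k

/-- `φ(α) = ∫ ψ(ξ) e^{iξα} dξ` -/
noncomputable def phi (ψ : ℝ → ℂ) (α : ℝ) : ℂ := ∫ ξ : ℝ, ψ ξ * exp (I * ξ * α)

lemma phi_eq (ψ : ℝ → ℂ) (α : ℝ) : phi ψ α = W182.KO.P ψ (α * I) := by
  unfold phi W182.KO.P
  congr 1; funext ξ
  congr 2
  ring

lemma Qk_scale (k : ℕ) {T : ℝ} (hT : Real.log T ≠ 0) (H y : ℝ) :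
    Qk k (Real.log T * y) T H = (H : ℂ)⁻¹ * ((Real.log T : ℂ) ^ (k ^ 2))⁻¹ *
    ∫ t in T..(T + H), W182.KO.ZP (fun _ : Fin k => (0:ℝ)) (1 / 2 + (y + t : ℝ) * I) *
      W182.KO.ZP (fun _ : Fin k => (0:ℝ)) (1 / 2 + (y - t : ℝ) * I) := by
  unfold Qk
  congr 1
  refine intervalIntegral.integral_congr fun t _ => ?_
  simp only [W182.KO.ZP_zero]
  have hT' : (Real.log T : ℂ) ≠ 0 := by exact_mod_cast hT
  have e1 : (1 / 2 + I * (Real.log T * y : ℝ) / Real.log T + I * t : ℂ) = 1 / 2 + (y + t : ℝ) * I := by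
    push_cast
    field_simp
    ring
  have e2 : (1 / 2 + I * (Real.log T * y : ℝ) / Real.log T - I * t : ℂ) = 1 / 2 + (y - t : ℝ) * I := by
    push_cast
    field_simp
    ring
  rw [e1, e2]

/-- the explicit form -/
theorem explicit_form {k : ℕ} {θ θ' : ℝ} (hθ : 0 ≤ θ) (hθ' : θ < θ') {ψ : ℝ → ℂ}
    (hψ : ContDiff ℝ ∞ ψ) (hc : HasCompactSupport ψ) (hs : ∀ ξ : ℝ, 2 * θ < ξ → ψ ξ = 0) (hk : 1 ≤ k) :
    ∃ C T₀ : ℝ, 0 ≤ C ∧ Real.exp 1 ≤ T₀ ∧ ∀ T : ℝ, T₀ ≤ T → ∀ H : ℝ, 0 < H → H ≤ T →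
      Integrable (fun α : ℝ => phi ψ α * Qk k α T H) ∧
      ‖(∫ α : ℝ, phi ψ α * Qk k α T H) - 2 * Real.pi / (Real.log T : ℂ) ^ (k ^ 2) *
        ∑' n : ℕ, (dk k n : ℂ) ^ 2 / n * ψ (2 * Real.log n / Real.log T)‖ ≤ C * (T ^ θ' / H) := by
  obtain ⟨C, T1, hC, hT1, hc'⟩ := R313.KO.short (ξ1 := 2 * θ) (ψ := ψ) ⟨hψ, hc, hs⟩ (by linarith) (θ := θ') (by linarith)
    (fun _ : Fin k => (0:ℝ)) (fun _ : Fin k => (0:ℝ))
  refine ⟨C, T1, hC, hT1, fun T hT H hH0 hHT => ?_⟩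
  obtain ⟨i3, h3⟩ := hc' T hT H hH0.le hHT
  have hTe : Real.exp 1 ≤ T := hT1.trans hT
  have hT1' : 1 ≤ T := by have := Real.add_one_le_exp 1; linarith
  have hT0 : 0 < T := by linarith
  have hL : 1 ≤ Real.log T := by
    rw [Real.le_log_iff_exp_le hT0]; exact hTe
  set L := Real.log T with hLd
  have hL0 : 0 < L := by linarith
  have hLc : (L : ℂ) ≠ 0 := by exact_mod_cast hL0.ne'
  have hHc : (H : ℂ) ≠ 0 := by exact_mod_cast hH0.ne'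
  simp only [W182.KO.tau_neg_zero] at h3
  have hpt : ∀ y : ℝ, phi ψ (L * y) * Qk k (L * y) T H = ((H : ℂ)⁻¹ * ((L : ℂ) ^ (k ^ 2))⁻¹) *
      (W182.KO.P ψ (L * y * I) * (∫ t in T..(T + H),
        W182.KO.ZP (fun _ : Fin k => (0:ℝ)) (1 / 2 + (y + t : ℝ) * I) *
          W182.KO.ZP (fun _ : Fin k => (0:ℝ)) (1 / 2 + (y - t : ℝ) * I))) := by
    intro y
    rw [Qk_scale k (by rw [← hLd]; exact hL0.ne') H y, ← hLd, phi_eq]
    push_cast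
    ring
  have e1 : (∫ α : ℝ, phi ψ α * Qk k α T H) = (H : ℂ)⁻¹ * ((L : ℂ) ^ (k ^ 2))⁻¹ * L *
      ∫ y : ℝ, W182.KO.P ψ (L * y * I) * (∫ t in T..(T + H),
        W182.KO.ZP (fun _ : Fin k => (0:ℝ)) (1 / 2 + (y + t : ℝ) * I) *
          W182.KO.ZP (fun _ : Fin k => (0:ℝ)) (1 / 2 + (y - t : ℝ) * I)) := by
    have h4 := Measure.integral_comp_mul_left (fun α : ℝ => phi ψ α * Qk k α T H) L
    have h5 : ∫ α : ℝ, phi ψ α * Qk k α T H = (L : ℂ) * ∫ y : ℝ, phi ψ (L * y) * Qk k (L * y) T H := by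
      rw [h4, abs_of_pos (by positivity)]
      rw [Complex.real_smul, ← mul_assoc, ← Complex.ofReal_mul, mul_inv_cancel₀ hL0.ne',
        Complex.ofReal_one, one_mul]
    rw [h5, integral_congr_ae (Eventually.of_forall hpt), integral_const_mul]
    ring
  refine ⟨?_, ?_⟩
  · have i4 : Integrable fun y : ℝ => phi ψ (L * y) * Qk k (L * y) T H := by
      rw [funext hpt]
      exact i3.const_mul _
    have i5 := i4.comp_mul_left' (inv_ne_zero hL0.ne')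
    refine i5.congr (Eventually.of_forall fun α => ?_)
    show phi ψ (L * (L⁻¹ * α)) * Qk k (L * (L⁻¹ * α)) T H = _
    rw [← mul_assoc, mul_inv_cancel₀ hL0.ne', one_mul]
  rw [e1]
  set J := ∫ y : ℝ, W182.KO.P ψ (L * y * I) * (∫ t in T..(T + H),
        W182.KO.ZP (fun _ : Fin k => (0:ℝ)) (1 / 2 + (y + t : ℝ) * I) *
          W182.KO.ZP (fun _ : Fin k => (0:ℝ)) (1 / 2 + (y - t : ℝ) * I)) with hJ
  have eS : (∑' n : ℕ, (dk k n : ℂ) ^ 2 / n * ψ (2 * Real.log n / L)) =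
      ∑' n : ℕ, (W182.KO.dk k n : ℂ) * W182.KO.dk k n / n * ψ (2 * Real.log n / L) :=
    tsum_congr fun n => by
      rw [show (dk k n : ℂ) = (W182.KO.dk k n : ℂ) from rfl, sq]
  rw [eS]
  set S := ∑' n : ℕ, (W182.KO.dk k n : ℂ) * W182.KO.dk k n / n * ψ (2 * Real.log n / L) with hS
  have e2 : (H : ℂ)⁻¹ * ((L : ℂ) ^ (k ^ 2))⁻¹ * L * J - 2 * Real.pi / (L : ℂ) ^ (k ^ 2) * S =
      (H : ℂ)⁻¹ * ((L : ℂ) ^ (k ^ 2))⁻¹ * L * (J - (H : ℂ) * (((2 * Real.pi / L : ℝ) : ℂ) * S)) := by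
    push_cast
    field_simp
  rw [e2, norm_mul, norm_mul, norm_mul, norm_inv, norm_inv, norm_pow, Complex.norm_real,
    Complex.norm_real, Real.norm_of_nonneg hH0.le, Real.norm_of_nonneg hL0.le]
  have h6 : (L ^ (k ^ 2))⁻¹ * L ≤ 1 := by
    rw [inv_mul_le_iff₀ (by positivity), mul_one]
    exact le_self_pow₀ hL (by positivity)
  calc _ = H⁻¹ * ((L ^ (k ^ 2))⁻¹ * L) * ‖J - (H : ℂ) * (((2 * Real.pi / L : ℝ) : ℂ) * S)‖ := by ring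
    _ ≤ H⁻¹ * 1 * (C * T ^ θ') := by gcongr
    _ = C * (T ^ θ' / H) := by
      field_simp

theorem result (k : ℕ) (hk : 1 ≤ k) (θ θ' : ℝ) (hθ : 0 ≤ θ) (hθ' : θ < θ') (ψ : ℝ → ℂ)
    (hψ : ContDiff ℝ ∞ ψ) (hc : HasCompactSupport ψ) (hs : ∀ ξ : ℝ, 2 * θ < ξ → ψ ξ = 0) :
    (∃ C T₀ : ℝ, ∀ T : ℝ, T₀ ≤ T → ∀ H : ℝ, 0 < H → H ≤ T →
      Integrable (fun α : ℝ => phi ψ α * Qk k α T H) ∧
      ‖(∫ α : ℝ, phi ψ α * Qk k α T H) - 2 * Real.pi / (Real.log T : ℂ) ^ (k ^ 2) *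
        ∑' n : ℕ, (dk k n : ℂ) ^ 2 / n * ψ (2 * Real.log n / Real.log T)‖ ≤ C * (T ^ θ' / H)) ∧
    ∀ η : ℝ, 0 < η → ∃ T₀ : ℝ, ∀ T : ℝ, T₀ ≤ T → ∀ H : ℝ, T ^ θ' ≤ H → H ≤ T →
      ‖(∫ α : ℝ, phi ψ α * Qk k α T H) - 2 * Real.pi * ak k *
        ∫ u in Set.Ioi (0:ℝ), (u : ℂ) ^ (k ^ 2 - 1) / (k ^ 2 - 1).factorial * ψ (2 * u)‖ ≤ η := by
  refine ⟨?_, fun η hη => ?_⟩
  · obtain ⟨C, T₀, -, -, h⟩ := explicit_form hθ hθ' hψ hc hs hk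
    exact ⟨C, T₀, h⟩
  obtain ⟨θ₁, h1, h2⟩ := exists_between hθ'
  obtain ⟨C, T₁, hC, hT₁, h⟩ := explicit_form hθ h1 hψ hc hs hk
  have hdiag := W182.KO.diag_limit hk ψ hψ.continuous (2 * θ + 1) (by linarith) (fun u hu => hs u (by linarith))
  rw [H306R2.aF_nat k hk] at hdiag
  have hd1 := (hdiag.comp Real.tendsto_log_atTop).const_mul (2 * Real.pi : ℂ)
  have hpow : Tendsto (fun T : ℝ => C * T ^ (θ₁ - θ')) atTop (𝓝 (C * 0)) := by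
    refine Tendsto.const_mul _ ?_
    have := tendsto_rpow_neg_atTop (show 0 < θ' - θ₁ by linarith)
    simpa using this
  rw [mul_zero] at hpow
  obtain ⟨T₂, hT₂⟩ := eventually_atTop.mp ((Metric.tendsto_nhds.mp hd1 (η / 2) (by positivity)).and
    (hpow.eventually (gt_mem_nhds (show 0 < η / 2 by positivity))))
  refine ⟨max T₁ T₂, fun T hT H hH hHT => ?_⟩
  have hTe : Real.exp 1 ≤ T := hT₁.trans ((le_max_left _ _).trans hT)
  have hT1' : 1 ≤ T := by have := Real.add_one_le_exp 1; linarith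
  have hT0 : 0 < T := by linarith
  have hH0 : 0 < H := lt_of_lt_of_le (by positivity) hH
  obtain ⟨-, b1⟩ := h T ((le_max_left _ _).trans hT) H hH0 hHT
  obtain ⟨b2, b3⟩ := hT₂ T ((le_max_right _ _).trans hT)
  rw [dist_eq_norm] at b2
  have b4 : C * (T ^ θ₁ / H) ≤ C * T ^ (θ₁ - θ') := by
    refine mul_le_mul_of_nonneg_left ?_ hC
    rw [div_le_iff₀ hH0]
    calc T ^ θ₁ = T ^ (θ₁ - θ') * T ^ θ' := by
          rw [← Real.rpow_add hT0]; congr 1; ring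
      _ ≤ _ := by gcongr
  have e1 : 2 * (Real.pi : ℂ) / (Real.log T : ℂ) ^ (k ^ 2) *
        ∑' n : ℕ, (dk k n : ℂ) ^ 2 / n * ψ (2 * Real.log n / Real.log T) =
      2 * Real.pi * ((∑' n : ℕ, (W182.KO.dk k n : ℂ) * W182.KO.dk k n / n * ψ (2 * Real.log n / Real.log T)) /
        (Real.log T : ℂ) ^ (k ^ 2)) := by
    have eS : (∑' n : ℕ, (dk k n : ℂ) ^ 2 / n * ψ (2 * Real.log n / Real.log T)) =
        ∑' n : ℕ, (W182.KO.dk k n : ℂ) * W182.KO.dk k n / n * ψ (2 * Real.log n / Real.log T) :=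
      tsum_congr fun n => by
        rw [show (dk k n : ℂ) = (W182.KO.dk k n : ℂ) from rfl, sq]
    rw [eS]
    ring
  rw [e1] at b1
  have b5 := norm_add_le ((∫ α : ℝ, phi ψ α * Qk k α T H) - 2 * Real.pi *
      ((∑' n : ℕ, (W182.KO.dk k n : ℂ) * W182.KO.dk k n / n * ψ (2 * Real.log n / Real.log T)) /
        (Real.log T : ℂ) ^ (k ^ 2)))
    (2 * Real.pi *
      ((∑' n : ℕ, (W182.KO.dk k n : ℂ) * W182.KO.dk k n / n * ψ (2 * Real.log n / Real.log T)) /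
        (Real.log T : ℂ) ^ (k ^ 2)) - 2 * Real.pi * (((∏' p : Nat.Primes, ((1 - 1 / (p : ℝ)) ^ (k ^ 2) *
          ∑' m : ℕ, ((m + k - 1).choose m : ℝ) ^ 2 * (1 / (p : ℝ)) ^ m) : ℝ) : ℂ) *
        ∫ u in Set.Ioi (0:ℝ), (u : ℂ) ^ (k ^ 2 - 1) / (k ^ 2 - 1).factorial * ψ (2 * u)))
  refine le_trans (le_of_eq ?_) (b5.trans (by
    have b6 : ‖2 * (Real.pi : ℂ) *
      ((∑' n : ℕ, (W182.KO.dk k n : ℂ) * W182.KO.dk k n / n * ψ (2 * Real.log n / Real.log T)) /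
        (Real.log T : ℂ) ^ (k ^ 2)) - 2 * Real.pi * (((∏' p : Nat.Primes, ((1 - 1 / (p : ℝ)) ^ (k ^ 2) *
          ∑' m : ℕ, ((m + k - 1).choose m : ℝ) ^ 2 * (1 / (p : ℝ)) ^ m) : ℝ) : ℂ) *
        ∫ u in Set.Ioi (0:ℝ), (u : ℂ) ^ (k ^ 2 - 1) / (k ^ 2 - 1).factorial * ψ (2 * u))‖ < η / 2 := b2
    linarith))
  congr 1
  unfold ak
  ring

end Pool.Agent.Results.MP_6a632e_nt.ShortIntervalSpectrum
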